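import Mathlib
import Pool.Agent.H797R2.Hilbert.Transfer

set_option autoImplicit false

open Pool.Agent.H797R2.Hilbert

namespace Pool.Agent.Results.MP_27276c_an.NotBest

/-- For all non-conjugate exponents, Levin's constant is not best possible, neither in the series
inequality nor in the integral inequality: both hold with one strictly smaller constant. -/
theorem result (p q : ℝ) (hp : 1 < p) (hq : 1 < q) (hpq : 1 < 1 / p + 1 / q) :
    ∃ C : ℝ, 0 < C ∧ C < KK p q ∧ SeriesIneq p q C ∧ IntegralIneq p q C :=
  both hp hq hpq

end Pool.Agent.Results.MP_27276c_an.NotBest
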